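import Mathlib

set_option autoImplicit false

namespace Pool.Agent.H46.Goss

open IsLocalRing WithZero

variable {K : Type} [Field K]

/-- The ring `A` of elements of `K` regular away from the place `∞` given by `w`. -/
def Reg (w : Valuation K ℤᵐ⁰) : Set K :=
  {a | ∀ V : ValuationSubring K, V ≠ w.valuationSubring → a ∈ V}

/-- The residue field `F_∞` of `∞`. -/
abbrev Res (w : Valuation K ℤᵐ⁰) : Type := ResidueField w.valuationSubring

/-- The degree `d_∞` of `∞` over `k`: `F_∞` has `|k| ^ d_∞` elements. -/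
noncomputable def dInf (k : Type) (w : Valuation K ℤᵐ⁰) : ℕ :=
  Nat.log (Nat.card k) (Nat.card (Res w))

/-- A sign function: multiplicative, and equal to the residue on units at `∞`. -/
def IsSgn (w : Valuation K ℤᵐ⁰) (sgn : K →*₀ Res w) : Prop :=
  ∀ u : w.valuationSubring, w u = 1 → sgn u = residue _ u

/-- `S` is a set of representatives of `F_∞^* / k^*`. -/
def IsReps (k : Type) [Field k] [Algebra k K] {w : Valuation K ℤᵐ⁰} (sgn : K →*₀ Res w)
    (S : Set (Res w)) : Prop :=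
  0 ∉ S ∧ ∀ z : Res w, z ≠ 0 → ∃! s, s ∈ S ∧ ∃ c : k, z = sgn (algebraMap k K c) * s

/-- `A_{i+}`: the positive elements of `A` of degree `i`, where `deg a = -d_∞ v_∞(a)`. -/
def Pos (k : Type) {w : Valuation K ℤᵐ⁰} (sgn : K →*₀ Res w) (S : Set (Res w)) (i : ℕ) : Set K :=
  {a | a ∈ Reg w ∧ (dInf k w : ℤ) * log (w a) = i ∧ sgn a ∈ S}

/-- The power sum `∑_{a ∈ A_{i+}} a ^ m`. -/
noncomputable def powSum (k : Type) {w : Valuation K ℤᵐ⁰} (sgn : K →*₀ Res w) (S : Set (Res w))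
    (m i : ℕ) : K :=
  ∑ᶠ a ∈ Pos k sgn S i, a ^ m

/-- The Goss zeta value `ζ_A(-m) = ∑_i ∑_{a ∈ A_{i+}} a ^ m`. -/
noncomputable def zeta (k : Type) {w : Valuation K ℤᵐ⁰} (sgn : K →*₀ Res w) (S : Set (Res w))
    (m : ℕ) : K :=
  ∑ᶠ i, powSum k sgn S m i

end Pool.Agent.H46.Goss
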