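import Pool.Agent.H46.Goss.Gen

set_option autoImplicit false
set_option linter.unusedSectionVars false

namespace Pool.Agent.H46.Goss

open IsLocalRing WithZero Polynomial Pool.Agent.H46.FF IntermediateField Module

instance f5 : Fact (Nat.Prime 5) := ⟨by norm_num⟩

abbrev k5 : Type := ZMod 5

variable {K : Type} [Field K] [Pl K] {P : Place K}

lemma five {a e : K} (he : Bd P 0 e) (h : 0 < lg P a) : lg P (a ^ 5 + e * a) = 5 * lg P a := by
  have a0 : a ≠ 0 := by rintro rfl; simp [lg] at h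
  rw [(lg_add (pow_ne_zero 5 a0) ((he.mul0 .lg).mono (by rw [lg_pow]; push_cast; omega))).2, lg_pow]
  rfl

lemma bd_lg {a : K} {m : ℤ} (h : Bd P m a) (hm : 0 ≤ m) : lg P a ≤ m := by
  rcases eq_or_ne a 0 with rfl | e
  · simpa [lg]
  · exact (bd_iff e).mp h

lemma five' {a e : K} (he : Bd P 0 e) (h : 0 < lg P (a ^ 5 + e * a)) :
    lg P (a ^ 5 + e * a) = 5 * lg P a := five he (not_le.mp fun c => by
  have := bd_lg (((Bd.lg.mono c).pow 5).add (he.mul0 (Bd.lg.mono c))) le_rfl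
  omega)

lemma five'' {a e : K} (he : Bd P 0 e) (h : Bd P 0 (a ^ 5 + e * a)) : Bd P 0 a :=
  Bd.lg.mono (not_lt.mp fun c => by have := bd_lg h le_rfl; rw [five he c] at this; omega)

lemma lg_unit {a : K} (h : Bd P 0 a) (e : res P a ≠ 0) : a ≠ 0 ∧ lg P a = 0 := by
  have a0 : a ≠ 0 := by rintro rfl; exact e ((res_eq_zero h).mpr .zero)
  rw [Ne, res_eq_zero h, bd_iff a0] at e
  rw [bd_iff a0] at h
  exact ⟨a0, by omega⟩

lemma binom {t d : K} (ht : Bd P 1 t) (hd : Bd P 0 d) (n : ℕ) :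
    Bd P (n - 1) ((t + d) ^ (n + 1) - t ^ (n + 1) - (n + 1 : ℕ) * d * t ^ n) := by
  induction n with
  | zero => simpa using Bd.zero
  | succ n ih =>
    have h : Bd P 0 ((n + 1 : ℕ) : K) := bd_zero.mpr (natCast_mem _ _)
    convert ((ht.add (hd.mono (by omega))).mul ih).add
      ((h.mul0 (hd.mul0 (hd.mul0 (ht.pow n)))).mono (by omega)) using 1
    · push_cast; ring
    · push_cast; ring

variable [Algebra k5 K]

lemma h5 : (5 : K) = 0 := by
  rw [← map_ofNat (algebraMap k5 K) 5, show (5 : k5) = 0 from rfl, map_zero]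

lemma root5 {c : K} (h : c ^ 5 = c) : ∃ j : k5, algebraMap k5 K j = c := by
  have : c * ((c - 1) * ((c - 2) * ((c - 3) * (c - 4)))) = 0 := by
    linear_combination h + (-2 * c ^ 4 + 7 * c ^ 3 - 10 * c ^ 2 + 5 * c) * h5 (K := K)
  simp only [mul_eq_zero, sub_eq_zero] at this
  rcases this with e | e | e | e | e <;> rw [e]
  exacts [⟨0, map_zero _⟩, ⟨1, map_one _⟩, ⟨2, map_ofNat _ _⟩, ⟨3, map_ofNat _ _⟩, ⟨4, map_ofNat _ _⟩]

lemma cst5 (c : k5) : algebraMap k5 K c ^ 5 = algebraMap k5 K c := by rw [← map_pow, ZMod.pow_card]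

lemma add5 (a b : K) : (a + b) ^ 5 = a ^ 5 + b ^ 5 := by
  linear_combination (a ^ 4 * b + 2 * a ^ 3 * b ^ 2 + 2 * a ^ 2 * b ^ 3 + a * b ^ 4) * h5 (K := K)

lemma sum5 {M : Type} [AddCommMonoid M] (f : k5 → M) : ∑ c, f c = f 0 + f 1 + f 2 + f 3 + f 4 :=
  Fin.sum_univ_five f

lemma sum14 (a : K) : ∑ c : k5, (a + algebraMap k5 K c) ^ 14 = -(a ^ 5 - a) ^ 2 := by
  rw [sum5]
  simp only [map_zero, map_one, map_ofNat]
  linear_combination (54646962 + 192391864 * a + 315092123 * a ^ 2 + 318390800 * a ^ 3 +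
    221951730 * a ^ 4 + 113048936 * a ^ 5 + 43455812 * a ^ 6 + 12835680 * a ^ 7 + 2936934 * a ^ 8 +
    520520 * a ^ 9 + 70871 * a ^ 10 + 7280 * a ^ 11 + 546 * a ^ 12 + 28 * a ^ 13 + a ^ 14) *
    h5 (K := K)

lemma notc {z : ResidueField P.1} {d : k5} (hd : ∀ c : k5, c ^ 2 ≠ d)
    (h : z ^ 2 = algebraMap k5 _ d) (c : k5) : algebraMap k5 _ c ≠ z := by
  rintro rfl
  exact hd c ((algebraMap k5 (ResidueField P.1)).injective (by rwa [map_pow]))

lemma inj2 {z : ResidueField P.1} (h : ∀ c, algebraMap k5 _ c ≠ z) :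
    Function.Injective fun p : k5 × k5 => algebraMap k5 _ p.1 + algebraMap k5 _ p.2 * z := by
  rintro ⟨a, b⟩ ⟨c, d⟩ e
  obtain rfl : b = d := by_contra fun g => h ((c - a) / (b - d)) (by
    have : algebraMap k5 (ResidueField P.1) (b - d) ≠ 0 := by simpa [sub_eq_zero] using g
    rw [map_div₀, div_eq_iff this, map_sub, map_sub]
    linear_combination -e)
  rw [show a = c from (algebraMap k5 _).injective (add_right_cancel e)]

lemma sur2 (hP : deg k5 P = 2) {z : ResidueField P.1} (h : ∀ c, algebraMap k5 _ c ≠ z) (u) :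
    ∃ p : k5 × k5, algebraMap k5 _ p.1 + algebraMap k5 _ p.2 * z = u :=
  ((inj2 h).bijective_of_nat_card_le (by rw [card_deg (k := k5), hP]; simp)).2 u

variable {τ x y : K}

/-- local analysis at a zero of `τ ^ 2 - 2` -/
lemma loc (hx : (τ ^ 2 - 2) * (x ^ 5 - x) = τ ^ 2 + 2) (hy : (τ ^ 2 - 2) * (y ^ 5 - y) = 2 * τ)
    (h : Bd P (-1) (τ ^ 2 - 2)) (n0 : τ ^ 2 - 2 ≠ 0) :
    Bd P 0 τ ∧ res P τ ^ 2 = algebraMap k5 _ 2 ∧ 2 ≤ deg k5 P ∧ 0 < lg P (x + τ * y) ∧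
      lg P x = 5 * lg P (x + τ * y) ∧ lg P y = lg P x ∧ lg P (τ ^ 2 - 2) = -25 * lg P (x + τ * y) ∧
      Bd P 0 ((x + τ * y) ^ 5 + (x + τ * y) - 2 * x) := by
  have c : ∀ j : ℕ, Bd P 0 (j : K) := fun j => bd_zero.mpr (natCast_mem _ _)
  have c2 : Bd P 0 (2 : K) := c 2
  have b : Bd P 0 τ := Bd.lg.mono (not_lt.mp fun g => by
    have := bd_lg (show Bd P 0 (τ ^ 2) by simpa using (h.mono (by omega)).add c2) le_rfl
    rw [lg_pow] at this; push_cast at this; omega)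
  have b2 : Bd P 0 (τ ^ 2) := by simpa using b.pow 2
  have r2 : res P 2 = algebraMap k5 _ 2 := by rw [← res_const, map_ofNat]
  have r : res P τ ^ 2 = algebraMap k5 _ 2 := by rw [← res_pow b, ← r2, res_eq_res b2 c2]; exact h
  have nc := notc (by decide) r
  have u2 := lg_unit c2 (by rw [r2, _root_.map_ne_zero]; decide)
  have u1 := lg_unit b fun e => nc 0 (by rw [e, map_zero])
  have u3 := lg_unit (b2.add c2) (by
    rw [res_add b2 c2, res_pow b, r, r2, ← map_add, _root_.map_ne_zero]; decide)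
  have e := (bd_iff n0).mp h
  have m1 : Bd P 0 (-1 : K) := Bd.one.neg
  have lx : ∀ {x g : K}, (τ ^ 2 - 2) * (x ^ 5 - x) = g → g ≠ 0 → lg P g = 0 →
      -lg P (τ ^ 2 - 2) = 5 * lg P x := fun {x g} a g0 l => by
    rw [← a, lg_mul n0 (right_ne_zero_of_mul (a ▸ g0))] at l
    rw [← five' m1 (by rw [neg_one_mul, ← sub_eq_add_neg]; omega), neg_one_mul, ← sub_eq_add_neg]
    omega
  have l1 := lx hx u3.1 u3.2
  have l2 := lx hy (mul_ne_zero u2.1 u1.1) (by rw [lg_mul u2.1 u1.1, u2.2, u1.2]; rfl)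
  have B : Bd P 0 ((x + τ * y) ^ 5 + (x + τ * y) - 2 * x) := by
    have : Bd P 0 ((τ ^ 2 - 2) * y) := (Bd.lg.mul .lg).mono (by omega)
    convert (m1.add ((c2.mul0 b2).mul0 (b2.add c2))).add ((b.mul0 (b2.add c2)).mul0 this) using 1
    rw [add5]
    refine mul_left_cancel₀ n0 ?_
    linear_combination hx + τ ^ 5 * hy + (2 * τ ^ 2 + τ * y * (τ ^ 2 - 2)) * h5 (K := K)
  have x0 : x ≠ 0 := by rintro rfl; simp [lg] at l1 e; omega
  have l3 : lg P ((x + τ * y) ^ 5 + 1 * (x + τ * y)) = lg P x := by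
    have l : lg P (2 * x) = lg P x := by rw [lg_mul u2.1 x0, u2.2, zero_add]
    rw [← l, ← (lg_add (mul_ne_zero u2.1 x0) (B.mono (by omega))).2]
    congr 1; ring
  have l4 := five' .one (l3 ▸ (by omega : 0 < lg P x))
  refine ⟨b, r, not_lt.mp fun g => ?_, by omega, by omega, by omega, by omega, B⟩
  have := deg_pos (k := k5) P
  obtain ⟨j, e⟩ := (finrank_eq_one_iff_of_nonzero' 1 one_ne_zero).mp
    (deg_eq (k := k5) P ▸ show deg k5 P = 1 by omega) (res P τ)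
  exact nc j (by rwa [Algebra.algebraMap_eq_smul_one])

lemma away (hx : (τ ^ 2 - 2) * (x ^ 5 - x) = τ ^ 2 + 2) (hy : (τ ^ 2 - 2) * (y ^ 5 - y) = 2 * τ)
    (h : ¬Bd P (-1) (τ ^ 2 - 2)) : Bd P 0 x ∧ Bd P 0 y := by
  have n0 : τ ^ 2 - 2 ≠ 0 := fun e => h (e ▸ .zero)
  have c : ∀ j : ℕ, Bd P 0 (j : K) := fun j => bd_zero.mpr (natCast_mem _ _)
  have m1 : Bd P 0 (-1 : K) := Bd.one.neg
  rw [bd_iff n0] at h
  have a : Bd P 0 (x ^ 5 + -1 * x) := by
    convert Bd.one.add ((c 4).mul0 (Bd.lg.mono (show lg P (τ ^ 2 - 2)⁻¹ ≤ 0 by rw [lg_inv]; omega)))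
      using 1
    field_simp
    push_cast
    linear_combination hx
  refine ⟨five'' m1 a, five'' m1 (Bd.lg.mono (not_lt.mp fun g => ?_))⟩
  have := bd_lg (show Bd P 0 ((y ^ 5 + -1 * y) ^ 2) by
    convert (c 3).mul0 ((a.mul0 a).add m1) using 1
    refine mul_left_cancel₀ (pow_ne_zero 2 n0) ?_
    linear_combination ((τ ^ 2 - 2) * (y ^ 5 - y) + 2 * τ) * hy -
      3 * ((τ ^ 2 - 2) * (x ^ 5 - x) + τ ^ 2 + 2) * hx - 4 * τ ^ 2 * h5 (K := K)) le_rfl
  rw [lg_pow] at this; push_cast at this; omega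

lemma fr_le [IsFF k5 K] (ht : Transcendental k5 τ) : Transcendental k5 (τ ^ 2 - 2) ∧
    finrank k5⟮τ ^ 2 - 2⟯ K = 2 * finrank k5⟮τ⟯ K := by
  have t : Transcendental k5 (τ ^ 2 - 2) := fun e => ht (.of_pow two_pos (by
    simpa using e.add (isAlgebraic_natCast 2)))
  refine ⟨t, ?_⟩
  zify
  rw [← (poles t).1, ← (poles ht).1, ← smul_eq_mul, ← map_smul]
  congr 1
  ext Q
  have c2 : Bd Q 0 (2 : K) := bd_zero.mpr (natCast_mem _ 2)
  simp only [Finsupp.sup_apply, pd_apply, Finsupp.smul_apply, Finsupp.zero_apply, smul_eq_mul]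
  rcases lt_or_ge 0 (lg Q τ) with g | g
  · have τ0 : τ ≠ 0 := by rintro rfl; exact ht isAlgebraic_zero
    rw [sub_eq_add_neg, (lg_add (pow_ne_zero 2 τ0) (c2.neg.mono (by rw [lg_pow]; omega))).2, lg_pow]
    omega
  · have := bd_lg ((((Bd.lg.mono g).pow 2).mono (by omega)).sub c2) le_rfl
    omega

end Pool.Agent.H46.Goss
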