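import Pool.Agent.H46.Goss.Ex1

set_option autoImplicit false
set_option linter.unusedSectionVars false

namespace Pool.Agent.H46.Goss

open IsLocalRing WithZero Polynomial Pool.Agent.H46.FF IntermediateField Module

abbrev K0 : Type := RatFunc k5

variable {K : Type} [Field K] [Pl K] [Algebra k5 K] [Algebra K0 K] [IsScalarTower k5 K0 K]
  [FiniteDimensional K0 K] [IsGalois K0 K] [IsFF k5 K] {τ x y : K}
  (hτ : algebraMap K0 K RatFunc.X = τ)
  (hx : (τ ^ 2 - 2) * (x ^ 5 - x) = τ ^ 2 + 2) (hy : (τ ^ 2 - 2) * (y ^ 5 - y) = 2 * τ)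

lemma fixc (σ : Gal(K/K0)) (c : k5) : σ (algebraMap k5 K c) = algebraMap k5 K c := by
  rw [IsScalarTower.algebraMap_apply k5 K0 K, σ.commutes]

include hτ

lemma tr : Transcendental k5 τ := hτ ▸ fun h => RatFunc.transcendental_X
  ((isAlgebraic_algebraMap_iff (algebraMap K0 K).injective).mp h)

lemma fixt (σ : Gal(K/K0)) : σ τ = τ := hτ ▸ σ.commutes _

lemma n_ne : τ ^ 2 - 2 ≠ 0 := fun e => (fr_le (tr hτ)).1 (e ▸ isAlgebraic_zero)

lemma fr25 : finrank k5⟮τ⟯ K ≤ Nat.card Gal(K/K0) := by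
  have m : ∀ f : K0, algebraMap K0 K f ∈ k5⟮τ⟯ := fun f => by
    have : f ∈ k5⟮τ⟯.comap (IsScalarTower.toAlgHom k5 K0 K) :=
      (RatFunc.adjoin_X.ge.trans (adjoin_simple_le_iff.mpr (show algebraMap K0 K RatFunc.X ∈ k5⟮τ⟯ from
        hτ.symm ▸ mem_adjoin_simple_self k5 τ))) trivial
    exact this
  let := ((algebraMap K0 K).codRestrict k5⟮τ⟯.toSubfield m).toAlgebra
  have : IsScalarTower K0 k5⟮τ⟯ K := .of_algebraMap_eq fun _ => rfl
  have := FiniteDimensional.left K0 k5⟮τ⟯ K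
  rw [IsGalois.card_aut_eq_finrank, ← finrank_mul_finrank K0 k5⟮τ⟯ K]
  exact Nat.le_mul_of_pos_left _ finrank_pos

include hx hy

lemma trans (σ : Gal(K/K0)) : ∃ p : k5 × k5, σ x = x + algebraMap k5 K p.1 ∧
    σ y = y + algebraMap k5 K p.2 := by
  have key : ∀ {x g : K}, (τ ^ 2 - 2) * (x ^ 5 - x) = g → σ g = g → ∃ c, σ x = x + algebraMap k5 K c :=
    fun {x g} a b => by
      have c := congrArg σ a
      simp only [map_mul, map_sub, map_pow, fixt hτ, map_ofNat, b] at c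
      obtain ⟨j, e⟩ := root5 (c := σ x + -x) (by
        rw [add5]; linear_combination mul_left_cancel₀ (n_ne hτ) (c.trans a.symm))
      exact ⟨j, by rw [e]; ring⟩
  obtain ⟨a, ha⟩ := key hx (by simp [fixt hτ, map_ofNat])
  obtain ⟨b, hb⟩ := key hy (by simp [fixt hτ, map_ofNat])
  exact ⟨(a, b), ha, hb⟩

theorem glob (gen : ∀ σ τ : Gal(K/K0), σ x = τ x → σ y = τ y → σ = τ) :
    ∃ P : Place K, Bd P (-1) (τ ^ 2 - 2) ∧ (∀ Q, Bd Q (-1) (τ ^ 2 - 2) → Q = P) ∧
      lg P (x + τ * y) = 1 ∧ deg k5 P = 2 ∧ ∀ p : k5 × k5, ∃ σ : Gal(K/K0),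
        σ x = x + algebraMap k5 K p.1 ∧ σ y = y + algebraMap k5 K p.2 := by
  classical
  obtain ⟨t, e⟩ := fr_le (tr hτ)
  choose f f1 f2 using trans hτ hx hy
  have fi : Function.Injective f := fun σ τ e => gen _ _ (by rw [f1, f1, e]) (by rw [f2, f2, e])
  have c1 := Nat.card_le_card_of_injective f fi
  have c2 := fr25 hτ
  have c3 : Nat.card (k5 × k5) = 25 := by simp
  obtain ⟨P, hP⟩ := ex_zero t
  have l := fun Q hQ => loc (P := Q) hx hy hQ (n_ne hτ)
  obtain ⟨-, -, a1, a2, -, -, a3, -⟩ := l P hP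
  have z := zeros_le t (D := Finsupp.single P (25 * lg P (x + τ * y)))
    (Finsupp.single_nonneg.mpr (by omega)) fun Q hQ => by
      obtain rfl : Q = P := by_contra fun c => hQ (Finsupp.single_eq_of_ne c)
      rw [Finsupp.single_eq_same]; omega
  rw [dg_single] at z
  have a4 : lg P (x + τ * y) = 1 := by nlinarith
  rw [a4] at z
  refine ⟨P, hP, fun Q hQ => by_contra fun c => ?_, a4, by omega, fun p => ?_⟩
  · obtain ⟨-, -, b1, b2, -, -, b3, -⟩ := l Q hQ
    have z := zeros_le t (D := Finsupp.single P 25 + Finsupp.single Q 25)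
      (add_nonneg (Finsupp.single_nonneg.mpr (by omega)) (Finsupp.single_nonneg.mpr (by omega)))
      fun R hR => by
        by_cases g : R = P
        · subst g; simp [Finsupp.single_eq_of_ne (Ne.symm c)]; omega
        obtain rfl : R = Q := by_contra fun c => hR (by simp [Finsupp.single_eq_of_ne, c, g])
        simp [Finsupp.single_eq_of_ne c]; omega
    rw [map_add, dg_single, dg_single] at z
    omega
  obtain ⟨σ, rfl⟩ := (fi.bijective_of_nat_card_le (by omega)).2 p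
  exact ⟨σ, f1 σ, f2 σ⟩

variable {P : Place K} (hP : Bd P (-1) (τ ^ 2 - 2)) (uq : ∀ Q, Bd Q (-1) (τ ^ 2 - 2) → Q = P)
  (ht : lg P (x + τ * y) = 1) (hd : deg k5 P = 2)
include hP uq

omit hx hy in
lemma fixP (σ : Gal(K/K0)) : σ • P = P := uq _ (by
  simpa [fixt hτ, map_ofNat] using (bd1_smul (σ := σ)).mpr hP)

include ht

lemma shift (σ : Gal(K/K0)) : ∃ p : k5 × k5, σ x = x + algebraMap k5 K p.1 ∧
    σ y = y + algebraMap k5 K p.2 ∧ Bd P 0 (algebraMap k5 K p.1 + algebraMap k5 K p.2 * τ) ∧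
    σ (x + τ * y) = x + τ * y + (algebraMap k5 K p.1 + algebraMap k5 K p.2 * τ) := by
  obtain ⟨p, a, b⟩ := trans hτ hx hy σ
  exact ⟨p, a, b, (Bd.const _).add ((Bd.const _).mul0 (loc hx hy hP (n_ne hτ)).1), by
    rw [map_add, map_mul, a, b, fixt hτ]; ring⟩

lemma bd_inv (σ : Gal(K/K0)) {m : ℤ} {b : K} (h : Bd P m b) : Bd P m (σ b) := by
  obtain ⟨p, -, -, a, e⟩ := shift hτ hx hy hP uq ht σ
  have t0 : x + τ * y ≠ 0 := fun e => by simp [e, lg] at ht
  obtain ⟨c, d⟩ := lg_add t0 (a.mono (by omega))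
  have := (bd0_smul (σ := σ)).mpr ((bd_mul_iff (zpow_ne_zero (-m) t0)).mpr
    (h.mono (by rw [lg_zpow, ht]; omega)))
  rw [fixP hτ hP uq, map_mul, map_zpow₀, e, bd_mul_iff (zpow_ne_zero _ c), lg_zpow, d, ht] at this
  exact this.mono (by omega)

include hd

lemma dec {n : ℕ} {b : K} (h : Bd P n b) : ∃ c : K, Bd P 0 c ∧ (∀ σ : Gal(K/K0), σ c = c) ∧
    Bd P (n - 1) (b - c * (x + τ * y) ^ n) := by
  obtain ⟨a, r, -⟩ := loc hx hy hP (n_ne hτ)
  have t0 : (x + τ * y) ^ n ≠ 0 := pow_ne_zero _ fun e => by simp [e, lg] at ht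
  have u : Bd P 0 (((x + τ * y) ^ n)⁻¹ * b) := (bd_mul_iff (inv_ne_zero t0)).mpr
    (h.mono (by rw [lg_inv, lg_pow, ht]; omega))
  obtain ⟨p, e⟩ := sur2 hd (notc (by decide) r) (res P (((x + τ * y) ^ n)⁻¹ * b))
  have a1 := (Bd.const (x := P) p.2).mul0 a
  rw [← res_const, ← res_const, ← res_mul (.const _) a, ← res_add (.const _) a1, eq_comm,
    res_eq_res u ((Bd.const _).add a1)] at e
  refine ⟨_, (Bd.const p.1).add a1, fun σ => by simp [fixc, fixt hτ], ?_⟩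
  convert (Bd.lg (f := (x + τ * y) ^ n)).mul e using 1
  · rw [lg_pow, ht]; ring
  · field_simp

lemma d1 (σ : Gal(K/K0)) {n : ℕ} {b : K} (h : Bd P n b) : Bd P (n - 1) (σ b - b) := by
  obtain ⟨c, a1, a2, a3⟩ := dec hτ hx hy hP uq ht hd h
  obtain ⟨p, -, -, a, e⟩ := shift hτ hx hy hP uq ht σ
  have t1 : Bd P 1 (x + τ * y) := ht ▸ Bd.lg
  have : Bd P (n - 1) (σ ((x + τ * y) ^ n) - (x + τ * y) ^ n) := by
    rw [map_pow, e]
    cases n with
    | zero => simpa using Bd.zero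
    | succ n =>
      simpa using ((binom t1 a n).mono (show _ ≤ (n : ℤ) by omega)).add ((((bd_zero.mpr
        (natCast_mem _ (n + 1))).mul0 a).mul0 (t1.pow n)).mono (by omega))
  convert ((bd_inv hτ hx hy hP uq ht σ a3).sub a3).add (a1.mul0 this) using 1
  rw [map_sub, map_mul, a2]; ring

lemma d2 {n : ℕ} {b : K} (h : lg P b = (n + 1 : ℕ)) : ∃ c : K, Bd P 0 c ∧ res P c ≠ 0 ∧
    ∀ (σ : Gal(K/K0)) (p : k5 × k5), σ x = x + algebraMap k5 K p.1 → σ y = y + algebraMap k5 K p.2 →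
      Bd P (n - 1) (σ b - b - c * ((n + 1 : ℕ) * (algebraMap k5 K p.1 + algebraMap k5 K p.2 * τ) *
        (x + τ * y) ^ n)) := by
  obtain ⟨c, a1, a2, a3⟩ := dec hτ hx hy hP uq ht hd (h ▸ Bd.lg)
  have t1 : Bd P 1 (x + τ * y) := ht ▸ Bd.lg
  refine ⟨c, a1, fun e => ?_, fun σ p e1 e2 => ?_⟩
  · have := bd_lg (show Bd P n b by
      simpa using (a3.mono (by omega)).add ((((res_eq_zero a1).mp e).mul (t1.pow (n + 1))).mono
        (show _ ≤ (n : ℤ) by omega))) (by omega)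
    omega
  have a := (Bd.const (x := P) p.1).add ((Bd.const p.2).mul0 (loc hx hy hP (n_ne hτ)).1)
  convert (d1 hτ hx hy hP uq ht hd σ (n := n) (a3.mono (by omega))).add (a1.mul0 (binom t1 a n))
    using 1
  rw [map_sub, map_mul, a2, map_pow, map_add, map_mul, e1, e2, fixt hτ]; ring

lemma cst : algebraicClosure k5 K = ⊥ := by
  refine bot_unique fun a ha => ?_
  rw [mem_algebraicClosure_iff] at ha
  obtain ⟨f, rfl⟩ := (IsGalois.mem_range_algebraMap_iff_fixed (F := K0) a).mpr fun σ => by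
    by_contra c
    have := (bd_iff (sub_ne_zero.mpr c)).mp (d1 hτ hx hy hP uq ht hd σ (n := 0) (.alg ha))
    rw [lg_alg (f := σ a - a) ((ha.algHom (σ.toAlgHom.restrictScalars k5)).sub ha)] at this
    omega
  obtain ⟨c, rfl⟩ : ∃ c, f = RatFunc.C c := by_contra fun c => f.transcendental_of_ne_C c
    ((isAlgebraic_algebraMap_iff (algebraMap K0 K).injective).mp ha)
  exact ⟨c, IsScalarTower.algebraMap_apply k5 K0 K c⟩

lemma low (hs : ∀ p : k5 × k5, ∃ σ : Gal(K/K0), σ x = x + algebraMap k5 K p.1 ∧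
      σ y = y + algebraMap k5 K p.2) (n : ℕ) (hn : n < 4) :
    ∀ a, (∀ Q ≠ P, Bd Q 0 a) → lg P a ≠ (n + 1 : ℕ) := by
  have rg : ∀ (σ : Gal(K/K0)) a, (∀ Q ≠ P, Bd Q 0 a) → ∀ Q ≠ P, Bd Q 0 (σ a - a) :=
    fun σ a h Q e => (bd0_smul'.mpr (h _ fun c => e (by
      rw [inv_smul_eq_iff.mp c, fixP hτ hP uq]))).sub (h Q e)
  obtain ⟨b, r, -⟩ := loc hx hy hP (n_ne hτ)
  induction n with
  | zero =>
    intro a h e
    obtain ⟨c, a1, a2, a3⟩ := d2 hτ hx hy hP uq ht hd e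
    have key : ∀ p : k5 × k5, ∃ j : k5, algebraMap k5 _ j =
        res P c * (algebraMap k5 _ p.1 + algebraMap k5 _ p.2 * res P τ) := fun p => by
      obtain ⟨σ, e1, e2⟩ := hs p
      have a4 := a3 σ p e1 e2
      have a' := (Bd.const (x := P) p.2).mul0 b
      have a5 := a1.mul0 ((Bd.const p.1).add a')
      simp only [Nat.cast_zero, zero_sub, zero_add, Nat.cast_one, one_mul, pow_zero, mul_one] at a4
      have a6 : Bd P 0 (σ a - a) := by simpa using (a4.mono (by omega)).add a5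
      obtain ⟨j, e⟩ := IntermediateField.mem_bot.mp (cst hτ hx hy hP uq ht hd ▸
        mem_algebraicClosure_iff.mpr (alg_of_bd fun Q => by
          by_cases g : Q = P
          exacts [g ▸ a6, rg σ _ h Q g]))
      exact ⟨j, by rw [← res_const, e, (res_eq_res a6 a5).mpr a4, res_mul a1 ((Bd.const _).add a'),
        res_add (.const _) a', res_mul (.const _) b, res_const, res_const]⟩
    obtain ⟨i, hi⟩ := key (1, 0)
    obtain ⟨j, hj⟩ := key (0, 1)
    exact notc (by decide) r (j / i) (by rw [map_div₀, hi, hj]; simp [a2])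
  | succ n ih =>
    intro a h e
    obtain ⟨c, a1, a2, a3⟩ := d2 hτ hx hy hP uq ht hd e
    obtain ⟨σ, e1, e2⟩ := hs (1, 0)
    have a4 := a3 σ _ e1 e2
    simp only [map_one, map_zero, zero_mul, add_zero, mul_one] at a4
    have t0 : (x + τ * y) ^ (n + 1) ≠ 0 := pow_ne_zero _ fun e => by simp [e, lg] at ht
    have u := lg_unit a1 a2
    have u2 := lg_unit (P := P) (Bd.const ((n + 1 + 1 : ℕ) : k5)) (by
      rw [res_const, _root_.map_ne_zero, Ne, ZMod.natCast_eq_zero_iff]; omega)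
    rw [map_natCast] at u2
    have l : lg P (c * ((n + 1 + 1 : ℕ) * (x + τ * y) ^ (n + 1))) = (n + 1 : ℕ) := by
      rw [lg_mul u.1 (mul_ne_zero u2.1 t0), lg_mul u2.1 t0, u.2, u2.2, lg_pow, ht]; ring
    refine ih (by omega) _ (rg σ a h) ?_
    rw [← l, ← (lg_add (mul_ne_zero u.1 (mul_ne_zero u2.1 t0)) (l ▸ a4)).2]
    congr 1; ring

end Pool.Agent.H46.Goss
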