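import Pool.Agent.H46.Goss.Ex2
import Pool.Agent.H46.FF.Final

set_option autoImplicit false
set_option linter.unusedSectionVars false

namespace Pool.Agent.H46.Goss

open IsLocalRing WithZero Polynomial Pool.Agent.H46.FF IntermediateField Module

variable {K : Type} [Field K] [Pl K]

lemma bd_sg {P : Place K} {π : K} (hπ : lg P π = -1) (a : K) : Bd P 0 (a * π ^ lg P a) := by
  simpa [lg_zpow, hπ] using (Bd.lg (x := P) (f := a)).mul (Bd.lg (f := π ^ lg P a))

/-- the sign function attached to a uniformizer -/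
noncomputable def sg {P : Place K} {π : K} (hπ : lg P π = -1) : K →*₀ ResidueField P.1 where
  toFun a := res P (a * π ^ lg P a)
  map_zero' := by rw [zero_mul]; exact (res_eq_zero .zero).mpr .zero
  map_one' := by simp [lg_one, res_one]
  map_mul' a b := by
    rw [← res_mul (bd_sg hπ a) (bd_sg hπ b)]
    congr 1
    rcases eq_or_ne a 0 with rfl | a0
    · simp
    rcases eq_or_ne b 0 with rfl | b0
    · simp
    rw [lg_mul a0 b0, zpow_add₀ (by rintro rfl; simp [lg] at hπ)]; ring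

/-- the chosen representatives -/
def Lr : Finset (k5 × k5) := {(1, 0), (0, 2), (1, 1), (2, 1), (3, 1), (4, 1)}

lemma Lr_spec : ∀ p : k5 × k5, p ≠ 0 → ∃ l ∈ Lr, (∃ c, p = (c * l.1, c * l.2)) ∧
    ∀ l' ∈ Lr, (∃ c, p = (c * l'.1, c * l'.2)) → l' = l := by decide

variable [Algebra k5 K] [IsFF k5 K] {τ x y : K} {w : Valuation K ℤᵐ⁰} (hw : Function.Surjective w)

theorem fin (hx : (τ ^ 2 - 2) * (x ^ 5 - x) = τ ^ 2 + 2) (hy : (τ ^ 2 - 2) * (y ^ 5 - y) = 2 * τ)
    (n0 : τ ^ 2 - 2 ≠ 0) (hP : Bd (pl hw) (-1) (τ ^ 2 - 2))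
    (uq : ∀ Q, Bd Q (-1) (τ ^ 2 - 2) → Q = pl hw) (ht : lg (pl hw) (x + τ * y) = 1)
    (hd : deg k5 (pl hw) = 2) (hk : algebraicClosure k5 K = ⊥)
    (low : ∀ n < 4, ∀ a, (∀ Q ≠ pl hw, Bd Q 0 a) → lg (pl hw) a ≠ (n + 1 : ℕ)) :
    ∃ (sgn : K →*₀ Res w) (S : Set (Res w)), IsSgn w sgn ∧ IsReps k5 sgn S ∧ 1 ∈ S ∧
      zeta k5 sgn S 14 = 0 := by
  classical
  obtain ⟨b, r, -, -, lx, ly, -, B⟩ := loc hx hy hP n0
  rw [ht, mul_one] at lx
  have x0 : x ≠ 0 := fun e => by simp [e, lg] at lx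
  have t0 : x + τ * y ≠ 0 := fun e => by simp [e, lg] at ht
  have t1 : Bd (pl hw) 1 (x + τ * y) := ht ▸ Bd.lg
  have u3 := lg_unit (P := pl hw) (Bd.const (3 : k5)) (by rw [res_const, _root_.map_ne_zero]; decide)
  rw [map_ofNat] at u3
  have hπ : lg (pl hw) (3 * (x + τ * y))⁻¹ = -1 := by rw [lg_inv, lg_mul u3.1 t0, u3.2, ht]; rfl
  have hs : IsSgn w (sg hπ) := fun u hu => by
    have : lg (pl hw) u = 0 := by rw [← log_eq hw, hu, log_one]
    change res _ (_ * _ ^ lg _ _) = _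
    rw [this, zpow_zero, mul_one, res_eq (bd_zero.mpr u.2)]; rfl
  have sx : sg hπ x = 1 := by
    refine ((res_eq_res (bd_sg hπ x) .one).mpr ?_).trans res_one
    have := ((Bd.lg (f := (3 * (x + τ * y))⁻¹)).pow 5).mul
      (((Bd.lg (f := 3)).mono u3.2.le).mul0 ((B.mono zero_le_one).sub t1)).neg
    rw [hπ] at this
    convert this.mono (show _ ≤ (-1 : ℤ) by norm_num) using 1
    rw [lx, zpow_ofNat]
    have := mul_inv_cancel₀ (pow_ne_zero 5 (mul_ne_zero u3.1 t0))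
    rw [← inv_pow] at this
    linear_combination this + (-x - 48 * (x + τ * y) ^ 5) * (3 * (x + τ * y))⁻¹ ^ 5 * h5 (K := K)
  have yx : Bd (pl hw) 0 (x⁻¹ * y) := (bd_mul_iff (inv_ne_zero x0)).mpr (by
    rw [lg_inv, ← ly]; simpa using Bd.lg)
  have r3 : res (pl hw) (x⁻¹ * y) ^ 2 = algebraMap k5 _ 3 := by
    have a : Bd (pl hw) (-1) (τ * (x⁻¹ * y) - -1) := by
      convert ((Bd.lg (f := x⁻¹)).mul t1).mono (show _ ≤ (-1 : ℤ) by rw [lg_inv, lx]; norm_num) using 1
      field_simp; ring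
    rw [← res_eq_res (b.mul0 yx) Bd.one.neg, res_mul b yx, ← map_one (algebraMap k5 K), ← map_neg,
      res_const] at a
    have := congrArg (algebraMap k5 _ 3 * · ^ 2) a
    simp only [mul_pow, r, ← mul_assoc, ← map_mul, ← map_pow] at this
    rwa [show (3 * 2 : k5) = 1 from rfl, map_one, one_mul] at this
  have nc := notc (by decide) r3
  set φ := fun p : k5 × k5 => algebraMap k5 _ p.1 + algebraMap k5 _ p.2 * res (pl hw) (x⁻¹ * y)
  set ℓ := fun p : k5 × k5 => algebraMap k5 K p.1 * x + algebraMap k5 K p.2 * y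
  have φ0 : ∀ p, p ≠ 0 → φ p ≠ 0 := fun p h e => h (inj2 nc (e.trans (by simp)))
  have lin : ∀ p, p ≠ 0 → ℓ p ≠ 0 ∧ lg (pl hw) (ℓ p) = 5 ∧ sg hπ (ℓ p) = φ p := fun p h => by
    have a := (Bd.const (x := pl hw) p.2).mul0 yx
    have e : res _ (algebraMap k5 K p.1 + algebraMap k5 K p.2 * (x⁻¹ * y)) = φ p := by
      rw [res_add (.const _) a, res_mul (.const _) yx, res_const, res_const]
    obtain ⟨c, d⟩ := lg_unit ((Bd.const p.1).add a) (e ▸ φ0 p h)
    rw [show ℓ p = x * (algebraMap k5 K p.1 + algebraMap k5 K p.2 * (x⁻¹ * y)) by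
      simp only [ℓ]; field_simp]
    exact ⟨mul_ne_zero x0 c, by rw [lg_mul x0 c, lx, d]; rfl, by
      rw [map_mul, sx, one_mul]; exact (sgn_res hw hs c d).trans e⟩
  have L0 : ∀ l ∈ Lr, l ≠ 0 := by decide
  have h0 : (0 : Res w) ∉ φ '' Lr := fun ⟨l, a, e⟩ => φ0 l (L0 l a) e
  have h1 : (1 : Res w) ∈ φ '' Lr := ⟨(1, 0), by decide, by simp [φ]; rfl⟩
  have hS : IsReps k5 (sg hπ) (φ '' Lr) := ⟨h0, fun z hz => by
    obtain ⟨p, rfl⟩ := sur2 hd nc z
    have m : ∀ c l, φ p = algebraMap k5 _ c * φ l ↔ p = (c * l.1, c * l.2) := fun c l => by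
      rw [← (inj2 nc).eq_iff]; simp [φ, mul_add, mul_assoc]
    obtain ⟨l, a, ⟨c, e⟩, u⟩ := Lr_spec p (by rintro rfl; exact hz (by simp; rfl))
    refine ⟨φ l, ⟨⟨l, a, rfl⟩, c, sgn_const hw hs c ▸ (m c l).mpr e⟩, ?_⟩
    rintro _ ⟨⟨l', a', rfl⟩, c', e'⟩
    rw [u l' a' ⟨c', (m c' l').mp (sgn_const hw hs c' ▸ e')⟩]⟩
  have rg : x ∈ Reg w ∧ y ∈ Reg w := by
    simp only [reg_iff hw]
    exact ⟨fun Q e => (away hx hy fun c => e (uq Q c)).1, fun Q e => (away hx hy fun c => e (uq Q c)).2⟩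
  have rl : ∀ p, ℓ p ∈ Reg w := fun p V hV => add_mem (mul_mem (reg_const _ V hV) (rg.1 V hV))
    (mul_mem (reg_const _ V hV) (rg.2 V hV))
  have lo : ∀ a ∈ Reg w, lg (pl hw) a < 5 → lg (pl hw) a ≤ 0 := fun a h e => not_lt.mp fun c =>
    low ((lg (pl hw) a).toNat - 1) (by omega) a ((reg_iff hw).mp h) (by omega)
  have lp : ∀ i a, a ∈ Pos k5 (sg hπ) (φ '' Lr) i → 2 * lg (pl hw) a = i := fun i a h => by
    simpa [dInf_eq hw, hd, log_eq hw] using h.2.1
  have E : ∀ p, ℓ p ^ 5 - ℓ p = algebraMap k5 K p.1 * (x ^ 5 - x) +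
      algebraMap k5 K p.2 * (y ^ 5 - y) := fun p => by
    simp only [ℓ, add5, mul_pow, cst5]; ring
  refine ⟨sg hπ, φ '' Lr, hs, hS, h1, ?_⟩
  rw [zeta, finsum_eq_sum_of_support_subset (s := {0, 10}) _ fun i hi => by_contra fun hc => hi ?_,
    Finset.sum_pair (by decide), powSum, pos_zero hw hk hs hS (c := 1) (by rwa [map_one, map_one]),
    finsum_mem_singleton, powSum, show Pos k5 (sg hπ) (φ '' Lr) 10 =
      (fun q : _ × k5 => ℓ q.1 + algebraMap k5 K q.2) '' ↑(Lr ×ˢ (Finset.univ : Finset k5)) from ?_,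
    finsum_mem_image, finsum_mem_coe_finset, Finset.sum_product]
  · simp only [sum14, E, Lr]
    iterate 5 rw [Finset.sum_insert (by decide)]
    simp only [Finset.sum_singleton, map_zero, map_one, map_ofNat]
    refine mul_left_cancel₀ (pow_ne_zero 2 n0) ?_
    linear_combination -((τ ^ 2 - 2) * (x ^ 5 - x) + τ ^ 2 + 2) * hx + 2 *
      ((τ ^ 2 - 2) * (y ^ 5 - y) + 2 * τ) * hy - (τ ^ 2 - 2) ^ 2 * (6 * (x ^ 5 - x) ^ 2 +
        4 * (x ^ 5 - x) * (y ^ 5 - y) + 2 * (y ^ 5 - y) ^ 2) * h5 (K := K)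
  · rintro ⟨l, c⟩ a ⟨l', c'⟩ a' e
    have s : ∀ l ∈ Lr, ∀ c, sg hπ (ℓ l + algebraMap k5 K c) = φ l := fun l a c => by
      obtain ⟨a1, a2, a3⟩ := lin l (L0 l a)
      exact (sgn_add hw hs a1 ((Bd.const c).mono (by omega))).trans a3
    obtain rfl : l = l' := inj2 nc (((s l (by simpa using a) c).symm.trans (congrArg _ e)).trans
      (s l' (by simpa using a') c'))
    rw [show c = c' from (algebraMap k5 K).injective (add_left_cancel e)]
  · refine Set.Subset.antisymm (fun a ha => ?_) ?_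
    · obtain ⟨l, a1, e⟩ := ha.2.2
      obtain ⟨-, a2, a3⟩ := lin l (L0 l a1)
      have a4 : lg (pl hw) a = 5 := by have := lp _ _ ha; omega
      have := (res_eq_res (bd_sg hπ a) (bd_sg hπ (ℓ l))).mp (e.symm.trans a3.symm)
      rw [a4, a2, ← sub_mul, mul_comm, bd_mul_iff (zpow_ne_zero _ (inv_ne_zero (mul_ne_zero u3.1 t0))),
        lg_zpow, hπ] at this
      have g : a - ℓ l ∈ Reg w := fun V hV => sub_mem (ha.1 V hV) (rl l V hV)
      obtain ⟨c, e⟩ := reg_cst hw hk g (Bd.lg.mono (lo _ g (by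
        have := bd_lg this (by norm_num); omega)))
      exact ⟨(l, c), by simpa using a1, by simp [e]⟩
    rintro _ ⟨⟨l, c⟩, a, rfl⟩
    have a1 : l ∈ Lr := by simpa using a
    obtain ⟨-, a2, a3⟩ := lin l (L0 l a1)
    exact pos_add hw hs h0 ⟨rl l, by rw [log_eq hw, a2, dInf_eq hw, hd]; rfl, l, a1, a3.symm⟩
      (reg_const c) ((Bd.const c).mono (a2 ▸ by norm_num))
  refine stab ((algebraMap k5 K).toAddMonoidHom.coprod (LinearMap.toSpanSingleton k5 K x).toAddMonoidHom)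
    ((injective_iff_map_eq_zero _).mpr fun p e => ?_) (pos_fin hw i) (fun a ha p => ?_) _ fun a _ => ?_
  · change algebraMap k5 K p.1 + p.2 • x = 0 at e
    have : p.2 = 0 := by_contra fun c => by
      have := (lin (p.2, 0) (by simp [c])).2.1
      rw [show ℓ (p.2, 0) = algebraMap k5 K (-p.1) by
        rw [map_neg, ← eq_neg_of_add_eq_zero_right e]; simp [ℓ, Algebra.smul_def],
        lg_alg (isAlgebraic_algebraMap _)] at this
      omega
    exact Prod.ext (by simpa [this] using e) this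
  · have := lp _ _ ha
    have := lo a ha.1
    simp only [Finset.coe_insert, Finset.coe_singleton, Set.mem_insert_iff, Set.mem_singleton_iff] at hc
    refine pos_add hw hs h0 ha (fun V hV => ?_) ?_
    · change algebraMap k5 K p.1 + p.2 • x ∈ V
      rw [Algebra.smul_def]
      exact add_mem (reg_const _ V hV) (mul_mem (reg_const _ V hV) (rg.1 V hV))
    exact ((Bd.const p.1).mono (by omega)).add ((Bd.lg.mono (by omega)).smul p.2)
  change ∑ p : k5 × k5, (a + (algebraMap k5 K p.1 + p.2 • x)) ^ 14 = 0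
  rw [Fintype.sum_prod_type_right]
  simp only [add_comm (algebraMap k5 K _), ← add_assoc, sum14, add5, Algebra.smul_def, mul_pow, cst5]
  rw [sum5]
  simp only [map_zero, map_one, map_ofNat]
  linear_combination -((a ^ 5 - a) ^ 2 + 4 * (a ^ 5 - a) * (x ^ 5 - x) + 6 * (x ^ 5 - x) ^ 2) *
    h5 (K := K)

lemma sep5 (u : K0) : (X ^ 5 - X - C u : K0[X]).Separable := by
  refine ⟨0, -1, ?_⟩
  have : ((5 : ℕ) : K0) = 0 := by
    rw [← map_natCast (algebraMap k5 K0) 5, show ((5 : ℕ) : k5) = 0 from rfl, map_zero]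
  simp only [derivative_sub, derivative_X_pow, this]
  simp

theorem ex : ∃ (K : Type) (_ : Field K) (_ : Algebra k5 K) (_ : Algebra K0 K)
    (_ : IsScalarTower k5 K0 K) (_ : FunctionField k5 K) (w : Valuation K ℤᵐ⁰)
    (sgn : K →*₀ Res w) (S : Set (Res w)), algebraicClosure k5 K = ⊥ ∧ Function.Surjective w ∧
    dInf k5 w = 2 ∧ IsSgn w sgn ∧ IsReps k5 sgn S ∧ 1 ∈ S ∧ (∀ i, (Pos k5 sgn S i).Finite) ∧
    (Function.support (powSum k5 sgn S 14)).Finite ∧ zeta k5 sgn S 14 = 0 := by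
  let T : K0 := RatFunc.X
  let f : K0 → K0[X] := fun u => X ^ 5 - X - C u
  let u := (T ^ 2 + 2) / (T ^ 2 - 2)
  let v := 2 * T / (T ^ 2 - 2)
  have d : ∀ u, (f u).degree = 5 := fun u => by simp only [f]; compute_degree!
  have f0 : ∀ u, f u ≠ 0 := fun u e => by simpa [e] using d u
  let K := (f u * f v).SplittingField
  have sp := (splits_mul (map_ne_zero (f0 u)) (map_ne_zero (f0 v))).mp
    (Polynomial.map_mul (algebraMap K0 K) ▸ SplittingField.splits (f u * f v))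
  have rt : ∀ u (z : K), aeval z (f u) = 0 ↔ z ^ 5 - z = algebraMap K0 K u := fun u z => by
    simp [f, sub_eq_zero]
  obtain ⟨x, hx⟩ := sp.1.exists_eval_eq_zero (by rw [degree_map, d]; decide)
  obtain ⟨y, hy⟩ := sp.2.exists_eval_eq_zero (by rw [degree_map, d]; decide)
  rw [eval_map_algebraMap, rt] at hx hy
  have rs : ∀ z ∈ (f u * f v).rootSet K, aeval z (f u) = 0 ∨ aeval z (f v) = 0 := fun z h => by
    simpa using aeval_eq_zero_of_mem_rootSet h
  have : Algebra.IsSeparable K0 K := by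
    refine (separableClosure.eq_top_iff _ _).mp (top_unique fun z _ => ?_)
    refine (Algebra.adjoin_le (S := (separableClosure K0 K).toSubalgebra) fun z h => ?_)
      ((SplittingField.adjoin_rootSet _).ge trivial)
    exact (rs z h).elim (fun e => (sep5 u).of_dvd (minpoly.dvd _ _ e))
      fun e => (sep5 v).of_dvd (minpoly.dvd _ _ e)
  have : IsGalois K0 K := {}
  have : FunctionField k5 K := inferInstanceAs (FiniteDimensional K0 K)
  have := isFF k5 K
  have := IsFF.pl k5 K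
  have n0 := n_ne (K := K) rfl
  have hx' : (algebraMap K0 K T ^ 2 - 2) * (x ^ 5 - x) = algebraMap K0 K T ^ 2 + 2 := by
    rw [hx]; simp only [u, map_div₀, map_add, map_sub, map_pow, map_ofNat]; exact mul_div_cancel₀ _ n0
  have hy' : (algebraMap K0 K T ^ 2 - 2) * (y ^ 5 - y) = 2 * algebraMap K0 K T := by
    rw [hy]; simp only [v, map_div₀, map_mul, map_sub, map_pow, map_ofNat]; exact mul_div_cancel₀ _ n0
  obtain ⟨P, h1, h2, h3, h4, h5⟩ := glob rfl hx' hy' fun σ τ a b => by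
    have key : ∀ {x z : K}, σ x = τ x → z ^ 5 - z = x ^ 5 - x → σ z = τ z := fun {x z} a b => by
      obtain ⟨j, e⟩ := root5 (c := z + -x) (by rw [add5]; linear_combination b)
      rw [show z = x + algebraMap k5 K j by rw [e]; ring, map_add, map_add, a, fixc, fixc]
    exact Gal.ext (p := f u * f v) fun z h => (rs z h).elim
      (fun e => key a (((rt _ _).mp e).trans hx.symm)) fun e => key b (((rt _ _).mp e).trans hy.symm)
  have hw : Function.Surjective (FF.v P) := (IsDiscreteValuationRing.maximalIdeal P.1).valuation_surjective K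
  rw [← show pl hw = P from place_ext fun f hf => (bd_zero.mp hf :)] at h1 h2 h3 h4
  have hk := cst rfl hx' hy' h1 h2 h3 h4
  obtain ⟨sgn, S, a, b, c, d⟩ := fin hw hx' hy' n0 h1 h2 h3 h4 hk fun n hn =>
    low rfl hx' hy' h1 h2 h3 h4 h5 n hn
  exact ⟨K, _, _, _, inferInstance, inferInstance, _, sgn, S, hk, hw, h4, a, b, c, pos_fin hw,
    supp_fin hw a b.1 _, d⟩

end Pool.Agent.H46.Goss
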