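import Pool.Agent.H46.Goss.Defs
import Pool.Agent.H46.FF.Count

set_option autoImplicit false

namespace Pool.Agent.H46.Goss

open IsLocalRing WithZero Polynomial Pool.Agent.H46.FF

variable {k K : Type} [Field k] [Field K] [Algebra k K]

lemma stab {H M : Type} [AddCommGroup H] [Fintype H] [AddCommGroup M] (φ : H →+ K)
    (hφ : Function.Injective φ) {T : Set K} (hf : T.Finite) (hT : ∀ a ∈ T, ∀ h, a + φ h ∈ T)
    (f : K → M) (h : ∀ a ∈ T, ∑ c, f (a + φ c) = 0) : ∑ᶠ a ∈ T, f a = 0 := by
  classical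
  rw [finsum_mem_eq_finite_toFinset_sum _ hf]
  refine Finset.sum_cancels_of_partition_cancels (QuotientAddGroup.rightRel φ.range) fun x hx => ?_
  rw [Set.Finite.mem_toFinset] at hx
  rw [← h x hx]
  refine (Finset.sum_bij (fun c _ => x + φ c) (fun c _ => ?_) (fun a _ b _ e => hφ (add_left_cancel e))
    (fun b hb => ?_) fun _ _ => rfl).symm
  · simp only [Finset.mem_filter, Set.Finite.mem_toFinset, hT x hx c, true_and]
    exact QuotientAddGroup.rightRel_apply.mpr ⟨-c, by simp⟩
  · obtain ⟨c, e⟩ := QuotientAddGroup.rightRel_apply.mp (Finset.mem_filter.mp hb).2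
    exact ⟨-c, Finset.mem_univ _, by rw [map_neg, e]; ring⟩

lemma van [Fintype k] (n : ℕ) : ∀ (b : Fin n → K) (f : K[X]), f.degree < n →
    ∑ c : Fin n → k, f.eval (∑ j, c j • b j) = 0 := by
  induction n with
  | zero => intro b f h; simp [show f = 0 by simpa using h]
  | succ n ih =>
    intro b f h
    have := ih (fun j => b j.succ) (∑ c : k, taylor (c • b 0) f) ((degree_lt_iff_coeff_zero _ _).mpr
      fun m hm => by
        have h1 : ∀ c : K, (taylor c f).coeff m = f.coeff m := fun c => by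
          rcases (natDegree_le_iff_degree_le.mpr (Order.le_of_lt_succ h)).trans hm |>.eq_or_lt with e | e
          · rw [← e, coeff_taylor_natDegree]; rfl
          · rw [coeff_eq_zero_of_natDegree_lt e, coeff_eq_zero_of_natDegree_lt (by rwa [natDegree_taylor])]
        rw [finsetSum_coeff, Finset.sum_congr rfl fun c _ => h1 _, Finset.sum_const, nsmul_eq_mul,
          ← map_natCast (algebraMap k K), Finset.card_univ, FiniteField.cast_card_eq_zero, map_zero,
          zero_mul])
    rw [← this, ← (Fin.consEquiv fun _ => k).sum_comp, Fintype.sum_prod_type_right]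
    simp [eval_finsetSum, taylor_eval, Fin.sum_univ_succ, Fin.consEquiv, add_comm]

variable {w : Valuation K ℤᵐ⁰} (hw : Function.Surjective w)

/-- the place of `w` -/
def pl : Place K := ⟨w.valuationSubring, fun e => by
  obtain ⟨z, hz⟩ := hw (exp 1)
  have : w z ≤ 1 := (e ▸ trivial : z ∈ w.valuationSubring)
  rw [hz, ← exp_zero, exp_le_exp] at this
  omega⟩

variable [Pl K]

lemma unit_iff {a : K} (h : a ≠ 0) : w a = 1 ↔ lg (pl hw) a = 0 := by
  have a1 : w a ≤ 1 ↔ lg (pl hw) a ≤ 0 := by rw [← bd_iff h, bd_zero]; rfl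
  have a2 : w a⁻¹ ≤ 1 ↔ lg (pl hw) a⁻¹ ≤ 0 := by rw [← bd_iff (inv_ne_zero h), bd_zero]; rfl
  rw [map_inv₀, inv_le_one₀ (w.pos_iff.mpr h), lg_inv] at a2
  rw [le_antisymm_iff, a1, a2]
  omega

lemma lg_zpow {x : Place K} {a : K} (n : ℤ) : lg x (a ^ n) = n * lg x a := by
  rw [lg, map_zpow₀, log_zpow]; simp [lg]

lemma log_eq (a : K) : log (w a) = lg (pl hw) a := by
  set z := pw (pl hw) 1
  have z0 : z ≠ 0 := pw_ne
  have key : ∀ a, log (w a) = lg (pl hw) a * log (w z) := fun a => by
    rcases eq_or_ne a 0 with rfl | h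
    · simp [lg]
    have := (unit_iff hw (mul_ne_zero h (zpow_ne_zero (-lg (pl hw) a) z0))).mpr (by
      rw [lg_mul h (zpow_ne_zero _ z0), lg_zpow, lg_pw]; ring)
    have := congrArg log this
    rw [map_mul, log_mul (w.ne_zero_iff.mpr h) (w.ne_zero_iff.mpr (zpow_ne_zero _ z0)), map_zpow₀,
      log_zpow, log_one] at this
    simp at this
    linarith
  obtain ⟨u, hu⟩ := hw (exp 1)
  have h1 := key u
  rw [hu, log_exp] at h1
  have h2 : ¬w z ≤ 1 := fun e => by
    have := (bd_iff z0).mp ((bd_zero (x := pl hw)).mpr e)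
    rw [lg_pw] at this; omega
  rw [← exp_zero, ← log_le_iff_le_exp (w.ne_zero_iff.mpr z0)] at h2
  rw [key, Int.eq_one_of_mul_eq_one_left (by omega) h1.symm, mul_one]

variable {sgn : K →*₀ Res w} {S : Set (Res w)}

lemma sgn_res (hs : IsSgn w sgn) {a : K} (h : a ≠ 0) (e : lg (pl hw) a = 0) :
    sgn a = res (pl hw) a := by
  have b := (bd_iff h).mpr e.le
  rw [res_eq b]
  exact hs ⟨a, bd_zero.mp b⟩ ((unit_iff hw h).mpr e)

lemma sgn_add (hs : IsSgn w sgn) {a b : K} (h : a ≠ 0) (e : Bd (pl hw) (lg (pl hw) a - 1) b) :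
    sgn (a + b) = sgn a := by
  have e1 : Bd (pl hw) (-1) (a⁻¹ * b) := (bd_mul_iff (inv_ne_zero h)).mpr (by
    rw [lg_inv]; exact e.mono (by omega))
  obtain ⟨c, d⟩ := lg_add (x := pl hw) one_ne_zero (g := a⁻¹ * b) (by simpa [lg_one] using e1)
  rw [show a + b = a * (1 + a⁻¹ * b) by field_simp, map_mul, sgn_res hw hs c (d.trans lg_one),
    res_add .one (e1.mono (by omega)), res_one, (res_eq_zero (e1.mono (by omega))).mpr e1, add_zero]
  exact mul_one _

lemma reg_iff {a : K} : a ∈ Reg w ↔ ∀ y : Place K, y ≠ pl hw → Bd y 0 a :=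
  ⟨fun h y e => bd_zero.mpr (h _ fun c => e (Subtype.ext c)), fun h V e => by
    by_cases c : V = ⊤
    · exact c ▸ trivial
    · exact bd_zero.mp (h ⟨V, c⟩ fun d => e (congrArg Subtype.val d))⟩

variable [Finite k]

omit [Field k] [Algebra k K] [Pl K] [Finite k] in
lemma dInf_eq : dInf k w = deg k (pl hw) := rfl

omit [Field k] [Algebra k K] [Finite k] in
lemma pos_add (hs : IsSgn w sgn) (h0 : 0 ∉ S) {i : ℕ} {a b : K} (ha : a ∈ Pos k sgn S i)
    (hb : b ∈ Reg w) (e : Bd (pl hw) (lg (pl hw) a - 1) b) : a + b ∈ Pos k sgn S i := by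
  obtain ⟨a1, a2, a3⟩ := ha
  have a0 : a ≠ 0 := by rintro rfl; exact h0 (by simpa using a3)
  exact ⟨fun V hV => add_mem (a1 V hV) (hb V hV), by
    rw [log_eq hw, (lg_add a0 e).2, ← log_eq hw, a2], by rwa [sgn_add hw hs a0 e]⟩

include hw in
lemma pos_fin [IsFF k K] (i : ℕ) : (Pos k sgn S i).Finite := by
  classical
  refine (fin_M (k := k) (Finsupp.single (pl hw) i)).subset fun a ⟨a1, a2, _⟩ y _ => ?_
  by_cases e : y = pl hw
  · subst e
    have := deg_pos (k := k) (pl hw)
    rw [log_eq hw, dInf_eq hw] at a2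
    rw [Finsupp.single_eq_same]
    refine Bd.lg.mono ?_
    nlinarith [show 0 ≤ lg (pl hw) a by nlinarith]
  · rw [Finsupp.single_eq_of_ne e]
    exact (reg_iff hw).mp a1 y e

omit [Pl K] in
lemma reg_const (c : k) : algebraMap k K c ∈ Reg w := fun V _ => alg_mem (isAlgebraic_algebraMap c) V

omit [Finite k] in
lemma reg_alg [IsFF k K] {a : K} (h : a ∈ Reg w) (e : Bd (pl hw) 0 a) : IsAlgebraic k a :=
  alg_of_bd fun y => by
    by_cases c : y = pl hw
    · rwa [c]
    · exact (reg_iff hw).mp h y c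

include hw in
lemma supp_fin [IsFF k K] (hs : IsSgn w sgn) (h0 : 0 ∉ S) (m : ℕ) :
    (Function.support (powSum k sgn S m)).Finite := by
  classical
  have := Fintype.ofFinite k
  by_cases c : ∃ x ∈ Reg w, 0 < lg (pl hw) x
  swap
  · refine (Set.finite_le_nat 0).subset fun i hi => ?_
    obtain ⟨a, a1, a2, -⟩ : (Pos k sgn S i).Nonempty := by
      by_contra e
      exact hi (by simp [powSum, Set.not_nonempty_iff_eq_empty.mp e])
    have := not_lt.mp fun e => c ⟨a, a1, e⟩
    rw [log_eq hw] at a2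
    change i ≤ 0
    nlinarith
  obtain ⟨x, x1, x2⟩ := c
  have xt : Transcendental k x := fun e => by rw [lg_alg e] at x2; omega
  refine (Set.finite_le_nat (dInf k w * (m * (lg (pl hw) x).toNat))).subset fun i hi => ?_
  by_contra hc
  refine hi (stab (Fintype.linearCombination k fun j : Fin (m + 1) => x ^ (j : ℕ)).toAddMonoidHom
    ?_ (pos_fin hw i) (fun a ha c => pos_add hw hs h0 ha ?_ ?_) _ fun a _ => ?_)
  · refine LinearIndependent.fintypeLinearCombination_injective ?_
    simpa [Function.comp_def] using (((basisMonomials k).linearIndependent.map' (aeval x).toLinearMap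
      (LinearMap.ker_eq_bot.mpr (transcendental_iff_injective.mp xt))).comp _ Fin.val_injective :)
  · intro V hV
    change ∑ j, c j • x ^ (j : ℕ) ∈ V
    exact sum_mem fun j _ => by
      rw [Algebra.smul_def]; exact mul_mem (reg_const _ V hV) (pow_mem (x1 V hV) _)
  · change Bd _ _ (∑ j, c j • x ^ (j : ℕ))
    refine Bd.sum fun j _ => ((Bd.lg.pow j).mono ?_).smul _
    have a2 := ha.2.1
    rw [log_eq hw] at a2
    have : (j : ℤ) ≤ m := by exact_mod_cast Nat.le_of_lt_succ j.2
    have : (dInf k w * (m * lg (pl hw) x) : ℤ) < i := by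
      rw [← Int.toNat_of_nonneg x2.le]; exact_mod_cast not_le.mp hc
    have : m * lg (pl hw) x < lg (pl hw) a := lt_of_mul_lt_mul_left (a2 ▸ this) (by positivity)
    nlinarith
  · simpa [taylor_eval, add_comm, Fintype.linearCombination_apply] using
      van (k := k) (m + 1) (fun j => x ^ (j : ℕ)) (taylor a (X ^ m)) (by
        rw [degree_taylor, degree_X_pow]; exact_mod_cast m.lt_succ_self)

omit [Finite k] in
lemma reg_cst [IsFF k K] (hk : algebraicClosure k K = ⊥) {a : K} (h : a ∈ Reg w)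
    (e : Bd (pl hw) 0 a) : ∃ c, algebraMap k K c = a :=
  IntermediateField.mem_bot.mp (hk ▸ mem_algebraicClosure_iff.mpr (reg_alg hw h e))

lemma sgn_const (hs : IsSgn w sgn) (c : k) :
    sgn (algebraMap k K c) = algebraMap k (ResidueField (pl hw).1) c := by
  rcases eq_or_ne c 0 with rfl | h
  · rw [map_zero, map_zero, map_zero]; rfl
  · rw [sgn_res hw hs (by simpa) (lg_alg (isAlgebraic_algebraMap c) _), res_const]

include hw in
lemma pos_zero [IsFF k K] (hk : algebraicClosure k K = ⊥) (hs : IsSgn w sgn) (hS : IsReps k sgn S)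
    {c : k} (hc : sgn (algebraMap k K c) ∈ S) : Pos k sgn S 0 = {algebraMap k K c} := by
  have d := deg_pos (k := k) (pl hw)
  refine Set.eq_singleton_iff_unique_mem.mpr ⟨⟨reg_const c, by
    rw [log_eq hw, lg_alg (isAlgebraic_algebraMap c)]; simp, hc⟩, fun a ⟨a1, a2, a3⟩ => ?_⟩
  rw [log_eq hw, dInf_eq hw] at a2
  obtain ⟨b, rfl⟩ := reg_cst hw hk a1 (Bd.lg.mono ((mul_eq_zero.mp a2).resolve_left (by omega)).le)
  have c0 : c ≠ 0 := by rintro rfl; exact hS.1 (by simpa using hc)
  have := (hS.2 _ fun e => hS.1 (e ▸ a3)).unique ⟨a3, 1, by simp⟩ ⟨hc, b / c, by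
    rw [← map_mul, ← map_mul, div_mul_cancel₀ _ c0]⟩
  rw [sgn_const hw hs, sgn_const hw hs] at this
  rw [(algebraMap k (ResidueField (pl hw).1)).injective this]

include hw in
theorem ne_zero [IsFF k K] (hk : algebraicClosure k K = ⊥) (hd : dInf k w = 1) (hs : IsSgn w sgn)
    (hS : IsReps k sgn S) {m : ℕ} (m0 : 0 < m) (hm : ¬Nat.card k - 1 ∣ m) : zeta k sgn S m ≠ 0 := by
  classical
  have := Fintype.ofFinite k
  have sur : ∀ z, ∃ c : k, algebraMap k (ResidueField (pl hw).1) c = z := fun z => by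
    rw [dInf_eq hw, deg_eq] at hd
    obtain ⟨c, e⟩ := (finrank_eq_one_iff_of_nonzero' 1 one_ne_zero).mp hd z
    exact ⟨c, by rwa [Algebra.algebraMap_eq_smul_one]⟩
  obtain ⟨s, ⟨h1, -⟩, -⟩ := hS.2 1 one_ne_zero
  obtain ⟨c, rfl⟩ := sur s
  rw [← sgn_const hw hs] at h1
  have c0 : c ≠ 0 := by rintro rfl; exact hS.1 (by simpa using h1)
  have key : ∃ y : Place K, ∀ i ≠ 0, Bd y (-1) (powSum k sgn S m i) := by
    have l : ∀ i a, a ∈ Pos k sgn S i → lg (pl hw) a = i := fun i a ha => by
      simpa [hd, log_eq hw] using ha.2.1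
    by_cases e : ∃ n : ℕ, 0 < n ∧ ∃ x ∈ Reg w, lg (pl hw) x = n
    swap
    · refine ⟨pl hw, fun i hi => ?_⟩
      rw [powSum, Set.eq_empty_iff_forall_notMem.mpr fun a ha =>
        e ⟨i, by omega, a, ha.1, l i a ha⟩, finsum_mem_empty]
      exact .zero
    obtain ⟨n0, x, x1, x2⟩ := Nat.find_spec e
    have mn : ∀ a ∈ Reg w, lg (pl hw) a < Nat.find e → ∃ c, algebraMap k K c = a := fun a ha h =>
      reg_cst hw hk ha (Bd.lg.mono (not_lt.mp fun p => Nat.find_min e (m := (lg (pl hw) a).toNat)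
        (by omega) ⟨by omega, a, ha, by omega⟩))
    have xt : Transcendental k x := fun e => by rw [lg_alg e] at x2; omega
    have x0 : x ≠ 0 := by rintro rfl; exact xt isAlgebraic_zero
    obtain ⟨y, hy⟩ := ex_zero xt
    have yn : y ≠ pl hw := by rintro rfl; rw [bd_iff x0] at hy; omega
    have b : ∀ a ∈ Reg w, Bd y 0 a := fun a ha => (reg_iff hw).mp ha y yn
    have b' : ∀ i, ∀ a ∈ (pos_fin hw i).toFinset (s := Pos k sgn S i), Bd y 0 (a ^ m) :=
      fun i a ha => by simpa using (b a ((Set.Finite.mem_toFinset _).mp ha).1).pow m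
    refine ⟨y, fun i hi => ?_⟩
    rw [powSum, finsum_mem_eq_finite_toFinset_sum _ (pos_fin hw i), ← res_eq_zero (.sum (b' i)),
      res_sum (b' i), ← finsum_mem_eq_finite_toFinset_sum]
    by_cases g : Nat.find e < i
    · refine stab ((LinearMap.toSpanSingleton k K x).toAddMonoidHom) (smul_left_injective k x0)
        (pos_fin hw i) (fun a ha c => pos_add hw hs hS.1 ha (fun V hV => ?_)
          ((Bd.lg.mono (by rw [l i a ha]; omega)).smul c)) _ fun a ha => ?_
      · change c • x ∈ V
        rw [Algebra.smul_def]; exact mul_mem (reg_const _ V hV) (x1 V hV)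
      have : ∀ c : k, res y ((a + c • x) ^ m) = res y a ^ m := fun c => by
        rw [res_pow ((b a ha.1).add ((b x x1).smul c)), res_add (b a ha.1) ((b x x1).smul c),
          (res_eq_zero ((b x x1).smul c)).mpr (hy.smul c), add_zero]
      refine (Finset.sum_congr rfl fun c _ => this c).trans ?_
      rw [Finset.sum_const, nsmul_eq_mul, ← map_natCast (algebraMap k _), Finset.card_univ,
        FiniteField.cast_card_eq_zero, map_zero, zero_mul]
    refine stab (algebraMap k K).toAddMonoidHom (algebraMap k K).injective (pos_fin hw i)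
      (fun a ha c => pos_add hw hs hS.1 ha (reg_const c)
        ((Bd.const c).mono (by rw [l i a ha]; omega))) _ fun a ha => ?_
    have u : Bd (pl hw) 0 (x⁻¹ * a) := (bd_mul_iff (inv_ne_zero x0)).mpr
      (Bd.lg.mono (by rw [lg_inv, l i a ha]; omega))
    obtain ⟨r, hr⟩ := sur (res (pl hw) (x⁻¹ * a))
    rw [← res_const, eq_comm, res_eq_res u (.const r)] at hr
    obtain ⟨d, hd⟩ : ∃ d, algebraMap k K d = a - r • x := by
      rcases eq_or_ne (a - r • x) 0 with z | z
      · exact ⟨0, by rw [z, map_zero]⟩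
      refine mn _ (fun V hV => sub_mem (ha.1 V hV) (by
        rw [Algebra.smul_def]; exact mul_mem (reg_const _ V hV) (x1 V hV))) ?_
      have := (bd_iff z).mp (show Bd (pl hw) _ (a - r • x) by
        convert (Bd.lg (f := x)).mul hr using 1; rw [Algebra.smul_def]; field_simp)
      omega
    have : ∀ c : k, res y ((a + algebraMap k K c) ^ m) = algebraMap k _ ((d + c) ^ m) := fun c => by
      rw [res_pow ((b a ha.1).add (.const c)), map_pow, ← res_const,
        (res_eq_res ((b a ha.1).add (.const c)) (.const (d + c))).mpr]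
      convert hy.smul r using 1
      rw [map_add, hd]; ring
    refine (Finset.sum_congr rfl fun c _ => this c).trans ?_
    rw [← map_sum, map_eq_zero]
    refine (Equiv.sum_comp (Equiv.addLeft d) (· ^ m)).trans ?_
    rw [← Finset.add_sum_erase _ _ (Finset.mem_univ 0),
      zero_pow m0.ne', zero_add, Finset.sum_subtype _ (p := (· ≠ 0)) (by simp),
      ← unitsEquivNeZero.sum_comp]
    rw [Nat.card_eq_fintype_card] at hm
    simpa [hm] using FiniteField.sum_pow_units k m
  obtain ⟨y, hy⟩ := key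
  intro z
  rw [zeta, finsum_eq_sum_of_support_subset (s := insert 0 (supp_fin (k := k) hw hs hS.1 m).toFinset) _
    (by simp), ← Finset.add_sum_erase _ _ (Finset.mem_insert_self _ _), add_eq_zero_iff_eq_neg,
    powSum, pos_zero hw hk hs hS h1, finsum_mem_singleton] at z
  have := z ▸ (Bd.sum fun i hi => hy i (Finset.ne_of_mem_erase hi)).neg
  rw [← map_pow, bd_iff (by simp [c0]), lg_alg (isAlgebraic_algebraMap _)] at this
  omega

end Pool.Agent.H46.Goss
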